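import Mathlib
import Pool.Agent.TH119.OP.Main

/-!
# Bounded Hecke traces: one prime suffices

Let `K` and `E` be number fields and let `P_v` be polynomials of degree `n` over the ring of
integers of `E`, for the primes `v` of `K` (the Hecke polynomials of an automorphic representation
of `GL_n` over `K`).  Suppose that the traces, i.e. the coefficients of `X ^ (n - 1)`, and all their
conjugates are bounded on a set of primes of upper density greater than `1 - 1 / n ^ 2`.  If an
`ℓ`-adic representation is attached to the `P_v` for ONE prime `ℓ`, then it has finite image and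
there are representations attached to the `P_v` over all algebraically closed fields containing
`E`, with the same kernel.
-/

namespace Pool.Agent.Results.MP_ef641d_nt.OnePrimeSuffices

open NumberField IsDedekindDomain Polynomial Filter

/-- The absolute Galois group, with the Krull topology. -/
abbrev AbsGal (K : Type) [Field K] : Type := Gal(AlgebraicClosure K/K)

/-- `σ` is a Frobenius element at the prime `v` of `K`: there is a maximal ideal `Q` above `v` of the
ring of all algebraic integers with `σ x ≡ x ^ N(v)` modulo `Q` for all `x`. -/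
def IsFrobenius {K : Type} [Field K] [NumberField K] (v : HeightOneSpectrum (𝓞 K))
    (σ : AbsGal K) : Prop :=
  ∃ Q : Ideal (𝓞 (AlgebraicClosure K)), Q.IsMaximal ∧
    Q.comap (algebraMap (𝓞 K) (𝓞 (AlgebraicClosure K))) = v.asIdeal ∧
    ∀ x : 𝓞 (AlgebraicClosure K), σ • x - x ^ Ideal.absNorm v.asIdeal ∈ Q

/-- `σ` is in an inertia group at the prime `v` of `K`: there is a maximal ideal `Q` above `v` of the
ring of all algebraic integers with `σ x ≡ x` modulo `Q` for all `x`. -/
def IsInertia {K : Type} [Field K] [NumberField K] (v : HeightOneSpectrum (𝓞 K))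
    (σ : AbsGal K) : Prop :=
  ∃ Q : Ideal (𝓞 (AlgebraicClosure K)), Q.IsMaximal ∧
    Q.comap (algebraMap (𝓞 K) (𝓞 (AlgebraicClosure K))) = v.asIdeal ∧
    ∀ x : 𝓞 (AlgebraicClosure K), σ • x - x ∈ Q

/-- The representation `ρ` of the absolute Galois group of `K` over the topological field `k` is
attached to the polynomials `P_v` outside `S`, where `φ : E → k` is used to compare the
coefficients: it is continuous, unramified at the primes `v` outside `S`, and the Frobenius
elements at these `v` have the characteristic polynomial `φ(P_v)`. -/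
structure IsAttached {K E : Type} [Field K] [NumberField K] [Field E] [NumberField E] {n : ℕ}
    (P : HeightOneSpectrum (𝓞 K) → (𝓞 E)[X]) (S : Set (HeightOneSpectrum (𝓞 K)))
    {k : Type} [Field k] [TopologicalSpace k] (φ : E →+* k)
    (ρ : AbsGal K →* Matrix.GeneralLinearGroup (Fin n) k) : Prop where
  continuous : Continuous fun g => (ρ g : Matrix (Fin n) (Fin n) k)
  unramified : ∀ v ∉ S, ∀ σ, IsInertia v σ → ρ σ = 1
  frobenius : ∀ v ∉ S, ∀ σ, IsFrobenius v σ →
    (ρ σ : Matrix (Fin n) (Fin n) k).charpoly = (P v).map (φ.comp (algebraMap (𝓞 E) E))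

/-- The representation `ρ` is semisimple: every stable subspace has a stable complement. -/
def IsSemisimple {G : Type} [Group G] {n : ℕ} {k : Type} [Field k]
    (ρ : G →* Matrix.GeneralLinearGroup (Fin n) k) : Prop :=
  ∀ W : Submodule k (Fin n → k),
    (∀ g, ∀ x ∈ W, (ρ g : Matrix (Fin n) (Fin n) k).mulVec x ∈ W) →
    ∃ W' : Submodule k (Fin n → k),
      (∀ g, ∀ x ∈ W', (ρ g : Matrix (Fin n) (Fin n) k).mulVec x ∈ W') ∧ IsCompl W W'

/-- The upper natural density of the set `V` of primes of `K` is greater than `δ₀`: there is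
`δ > δ₀` such that for arbitrarily large `N` at least `δ` times the number of primes of norm at most
`N` are in `V`. -/
def UpperDensityGT {K : Type} [Field K] [NumberField K] (V : Set (HeightOneSpectrum (𝓞 K)))
    (δ₀ : ℝ) : Prop :=
  ∃ δ : ℝ, δ₀ < δ ∧ ∃ᶠ N : ℕ in atTop,
    δ * {v : HeightOneSpectrum (𝓞 K) | Ideal.absNorm v.asIdeal ≤ N}.ncard ≤
      {v : HeightOneSpectrum (𝓞 K) | Ideal.absNorm v.asIdeal ≤ N ∧ v ∈ V}.ncard

/-- **Theorem.** Let `K`, `E` be number fields, `n ≥ 1`, and let `P_v` be polynomials over the ring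
of integers of `E`. Suppose that the set of primes `v` at which the coefficient of `X ^ (n - 1)` in
`P_v` and all its conjugates are bounded by some `B` has upper density greater than `1 - 1 / n ^ 2`.
Let `ρ_j` be a nonempty family of semisimple `n`-dimensional representations over Hausdorff
topological fields `k_j`, attached to the `P_v` outside finite sets `S_j`, by means of embeddings of
`E` in `k_j`. Then all `ρ_j` have an open kernel, and for every embedding `ι'` of `E` in an
algebraically closed field `Ω` there is an `n`-dimensional representation over `Ω` with the same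
kernel as all the `ρ_j`, such that for all `v` outside the intersection of the sets `S_j` it is
unramified at `v` and the characteristic polynomial of the Frobenius elements at `v` is
`ι'(P_v)`. -/
theorem result {n : ℕ} (hn : 0 < n) (K : Type) [Field K] [NumberField K] (E : Type) [Field E]
    [NumberField E] (P : HeightOneSpectrum (𝓞 K) → (𝓞 E)[X]) (B : ℝ)
    (hB : UpperDensityGT {v | ∀ τ : E →+* ℂ, ‖τ ((P v).coeff (n - 1) : 𝓞 E)‖ ≤ B}
      (1 - 1 / (n : ℝ) ^ 2))
    {J : Type} [Nonempty J] (S : J → Set (HeightOneSpectrum (𝓞 K))) (hS : ∀ j, (S j).Finite)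
    (k : J → Type) [∀ j, Field (k j)] [∀ j, TopologicalSpace (k j)]
    [∀ j, IsTopologicalRing (k j)] [∀ j, T2Space (k j)] (ι : ∀ j, E →+* k j)
    (ρ : ∀ j, AbsGal K →* Matrix.GeneralLinearGroup (Fin n) (k j))
    (hss : ∀ j, IsSemisimple (ρ j)) (hρ : ∀ j, IsAttached P (S j) (ι j) (ρ j)) :
    (∀ j, IsOpen ((ρ j).ker : Set (AbsGal K))) ∧
    ∀ (Ω : Type) [Field Ω] [IsAlgClosed Ω] (ι' : E →+* Ω),
      ∃ r : AbsGal K →* Matrix.GeneralLinearGroup (Fin n) Ω, (∀ j, r.ker = (ρ j).ker) ∧
        ∀ v, (∃ j, v ∉ S j) → (∀ σ, IsInertia v σ → r σ = 1) ∧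
          ∀ σ, IsFrobenius v σ → (r σ : Matrix (Fin n) (Fin n) Ω).charpoly =
            (P v).map (ι'.comp (algebraMap (𝓞 E) E)) := by
  classical
  have : ∀ j, CharZero (k j) := fun j => charZero_of_injective_ringHom (ι j).injective
  obtain ⟨δ, hδ, hfreq⟩ := hB
  have hset : ∀ N : ℕ, {v : HeightOneSpectrum (𝓞 K) | Ideal.absNorm v.asIdeal ≤ N} =
      (Pool.Agent.W540.BE.upto K N : Set (HeightOneSpectrum (𝓞 K))) := by
    intro N
    ext v
    rw [Set.mem_ofPred_eq, Finset.mem_coe, Pool.Agent.W540.BE.mem_upto]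
    rfl
  obtain ⟨h1, h2⟩ := Pool.Agent.TH119.OP.main hn P S hS k ι ρ (fun j => (hρ j).continuous) hss
    (fun j => (hρ j).frobenius) B δ hδ (by
      refine hfreq.mono fun N hN => ?_
      refine ⟨(Pool.Agent.W540.BE.upto K N).filter fun v =>
        ∀ τ : E →+* ℂ, ‖τ ((P v).coeff (n - 1) : 𝓞 E)‖ ≤ B, ?_, ?_⟩
      · intro v hv
        rw [Finset.mem_filter, Pool.Agent.W540.BE.mem_upto] at hv
        exact hv
      · rw [hset, Set.ncard_coe_finset] at hN
        refine hN.trans (le_of_eq ?_)
        rw [← Set.ncard_coe_finset]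
        congr 2
        ext v
        rw [Set.mem_ofPred_eq, Finset.mem_coe, Finset.mem_filter, Pool.Agent.W540.BE.mem_upto]
        rfl)
  refine ⟨h1, fun Ω _ _ ι' => ?_⟩
  obtain ⟨r, hr1, hr2⟩ := h2 Ω ι'
  refine ⟨r, hr1, fun v hv => ⟨fun σ hσ => ?_, hr2 v hv⟩⟩
  obtain ⟨j, hj⟩ := hv
  have h3 : σ ∈ (ρ j).ker := (hρ j).unramified v hj σ hσ
  rw [← hr1 j] at h3
  exact h3

end Pool.Agent.Results.MP_ef641d_nt.OnePrimeSuffices
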